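import Mathlib

open Finset

namespace Pool.Agent.Results.MP_26e8bc_co.JetsVeryWellCovered

/-- The graph of `s`-jets of `G`: the vertex `(v, i)` stands for `v_i`, `0 ≤ i ≤ s`, and
`v_i` is adjacent to `w_j` when `vw` is an edge of `G` and `i + j ≤ s`. -/
def jets {V : Type*} (G : SimpleGraph V) (s : ℕ) : SimpleGraph (V × Fin (s + 1)) where
  Adj p q := G.Adj p.1 q.1 ∧ (p.2 : ℕ) + (q.2 : ℕ) ≤ s
  symm := ⟨fun _ _ h => ⟨h.1.symm, by omega⟩⟩
  loopless := ⟨fun _ h => G.loopless.irrefl _ h.1⟩

/-- `I` is an inclusion-maximal independent set of `G`. -/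
def IsMaximalIndep {V : Type*} (G : SimpleGraph V) (I : Finset V) : Prop :=
  Maximal (fun S : Finset V => G.IsIndepSet (S : Set V)) I

/-- `G` is well covered: all its maximal independent sets have the same size. -/
def WellCovered {V : Type*} (G : SimpleGraph V) : Prop :=
  ∀ I J : Finset V, IsMaximalIndep G I → IsMaximalIndep G J → I.card = J.card

/-- `G` is very well covered: it has no isolated vertex, is well covered, and `|V| = 2 α(G)`. -/
def VeryWellCovered {V : Type*} [Fintype V] (G : SimpleGraph V) : Prop :=
  (∀ v, ∃ w, G.Adj v w) ∧ WellCovered G ∧ Fintype.card V = 2 * G.indepNum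

section aux

variable {V : Type*} [Fintype V] [DecidableEq V] (G : SimpleGraph V)

lemma exists_maximal_of_indep (S : Finset V) (hS : G.IsIndepSet (S : Set V)) :
    ∃ T, S ⊆ T ∧ IsMaximalIndep G T := by
  obtain ⟨T, hST, hT⟩ := Finite.exists_le_maximal (p := fun S : Finset V => G.IsIndepSet (S : Set V)) hS
  exact ⟨T, hST, hT⟩

lemma card_le_of_wellCovered (hG : WellCovered G) {S T : Finset V}
    (hS : G.IsIndepSet (S : Set V)) (hT : IsMaximalIndep G T) : S.card ≤ T.card := by
  obtain ⟨T', h1, h2⟩ := exists_maximal_of_indep G S hS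
  exact (Finset.card_le_card h1).trans (hG _ _ h2 hT).le

lemma maximal_card_eq (hG : WellCovered G) {T : Finset V} (hT : IsMaximalIndep G T) :
    T.card = G.indepNum := by
  obtain ⟨S, hS⟩ := G.exists_isNIndepSet_indepNum
  apply le_antisymm
  · exact SimpleGraph.IsIndepSet.card_le_indepNum hT.1
  · have := card_le_of_wellCovered G hG hS.1 hT
    rw [hS.2] at this
    exact this

/-- Berge: in a well covered graph without isolated vertices, `|S| ≤ |N(S)|` for every
independent set `S`. -/
lemma berge [DecidableRel G.Adj] (hiso : ∀ v, ∃ w, G.Adj v w) (hG : WellCovered G) :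
    ∀ n (S : Finset V), S.card = n → G.IsIndepSet (S : Set V) →
      S.card ≤ (S.biUnion fun v => G.neighborFinset v).card := by
  intro n
  induction n using Nat.strong_induction_on with
  | _ n ih =>
    intro S hSn hS
    rcases S.eq_empty_or_nonempty with rfl | ⟨v, hv⟩
    · simp
    obtain ⟨u, hvu⟩ := hiso v
    obtain ⟨T, huT, hT⟩ := exists_maximal_of_indep G {u} (by simp)
    have huT' : u ∈ T := huT (by simp)
    set N := S.biUnion fun v => G.neighborFinset v with hN
    have memN : ∀ w, w ∈ N ↔ ∃ a ∈ S, G.Adj a w := by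
      intro w; simp [hN]
    set X := T ∩ N with hX
    set S' := S.filter (fun a => ∀ x ∈ X, ¬ G.Adj a x) with hS'
    have huX : u ∈ X := by
      rw [hX, Finset.mem_inter]
      exact ⟨huT', (memN u).mpr ⟨v, hv, hvu⟩⟩
    have hvS' : v ∉ S' := by
      rw [hS', Finset.mem_filter]
      rintro ⟨_, h⟩
      exact h u huX hvu
    have hS'S : S' ⊆ S := Finset.filter_subset _ _
    have hlt : S'.card < n := by
      rw [← hSn]
      exact Finset.card_lt_card ⟨hS'S, fun h => hvS' (h hv)⟩
    have h1 := ih S'.card hlt S' rfl (hS.mono (by exact_mod_cast hS'S))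
    -- `|S'| + |X| ≤ |N|`
    have h2 : S'.card + X.card ≤ N.card := by
      have h3 : (S'.biUnion fun v => G.neighborFinset v) ∪ X ⊆ N := by
        intro w hw
        rcases Finset.mem_union.mp hw with hw | hw
        · obtain ⟨a, ha, haw⟩ := Finset.mem_biUnion.mp hw
          exact (memN w).mpr ⟨a, hS'S ha, by simpa using haw⟩
        · exact (Finset.mem_inter.mp hw).2
      have h4 : Disjoint (S'.biUnion fun v => G.neighborFinset v) X := by
        rw [Finset.disjoint_left]
        intro w hw hwX
        obtain ⟨a, ha, haw⟩ := Finset.mem_biUnion.mp hw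
        exact (Finset.mem_filter.mp ha).2 w hwX (by simpa using haw)
      have h5 := Finset.card_le_card h3
      rw [Finset.card_union_of_disjoint h4] at h5
      omega
    -- `|S \ T| ≤ |X|`
    have h6 : (S \ T).card ≤ X.card := by
      have h7 : G.IsIndepSet ((S ∪ (T \ N) : Finset V) : Set V) := by
        intro a ha b hb hab hadj
        simp only [Finset.coe_union, Finset.coe_sdiff, Set.mem_union, Finset.mem_coe,
          Set.mem_sdiff] at ha hb
        rcases ha with ha | ⟨haT, haN⟩ <;> rcases hb with hb | ⟨hbT, hbN⟩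
        · exact hS ha hb hab hadj
        · exact hbN ((memN b).mpr ⟨a, ha, hadj⟩)
        · exact haN ((memN a).mpr ⟨b, hb, hadj.symm⟩)
        · exact hT.1 haT hbT hab hadj
      have h8 := card_le_of_wellCovered G hG h7 hT
      have h9 : (S \ T) ∪ (T \ N) ⊆ S ∪ (T \ N) :=
        Finset.union_subset_union Finset.sdiff_subset (Finset.Subset.refl _)
      have h10 : Disjoint (S \ T) (T \ N) := by
        rw [Finset.disjoint_left]
        intro a ha hb
        exact (Finset.mem_sdiff.mp ha).2 (Finset.mem_sdiff.mp hb).1
      have h11 := Finset.card_le_card h9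
      rw [Finset.card_union_of_disjoint h10] at h11
      have h12 : (T \ N).card + X.card = T.card := by
        rw [hX]
        exact Finset.card_sdiff_add_card_inter T N
      omega
    -- `S ⊆ S' ∪ (S \ T)`
    have h13 : S ⊆ S' ∪ (S \ T) := by
      intro a ha
      by_cases haS' : a ∈ S'
      · exact Finset.mem_union_left _ haS'
      · apply Finset.mem_union_right
        rw [hS', Finset.mem_filter] at haS'
        push Not at haS'
        obtain ⟨x, hx, hax⟩ := haS' ha
        rw [Finset.mem_sdiff]
        refine ⟨ha, fun haT => ?_⟩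
        exact hT.1 haT (Finset.mem_inter.mp hx).1 (G.ne_of_adj hax) hax
    have h14 := (Finset.card_le_card h13).trans (Finset.card_union_le _ _)
    omega

/-- A graph with a perfect matching `m` having Favaron's property is very well covered. -/
lemma veryWellCovered_of_matching (m : V → V) (hm : ∀ v, m (m v) = v)
    (hadj : ∀ v, G.Adj v (m v))
    (hP : ∀ x v w, G.Adj x v → G.Adj (m x) w → G.Adj v w) : VeryWellCovered G := by
  have hcard : ∀ T : Finset V, IsMaximalIndep G T → 2 * T.card = Fintype.card V := by
    intro T hT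
    have h1 : T.image m = Tᶜ := by
      ext v
      rw [Finset.mem_image, Finset.mem_compl]
      constructor
      · rintro ⟨w, hw, rfl⟩ hmw
        exact hT.1 hw hmw (G.ne_of_adj (hadj w)) (hadj w)
      · intro hv
        refine ⟨m v, ?_, hm v⟩
        by_contra hmv
        have key : ∀ a, a ∉ T → ∃ b ∈ T, G.Adj a b := by
          intro a ha
          by_contra hcon
          push Not at hcon
          have hins : G.IsIndepSet ((insert a T : Finset V) : Set V) := by
            intro x hx y hy hxy hadj'
            simp only [Finset.coe_insert, Set.mem_insert_iff, Finset.mem_coe] at hx hy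
            rcases hx with rfl | hx <;> rcases hy with rfl | hy
            · exact hxy rfl
            · exact hcon y hy hadj'
            · exact hcon x hx hadj'.symm
            · exact hT.1 hx hy hxy hadj'
          exact ha (hT.2 hins (Finset.subset_insert a T) (Finset.mem_insert_self a T))
        obtain ⟨b, hb, hvb⟩ := key v hv
        obtain ⟨c, hc, hmc⟩ := key (m v) hmv
        have hbc := hP v b c hvb hmc
        exact hT.1 hb hc (G.ne_of_adj hbc) hbc
    have h2 : (T.image m).card = T.card := by
      apply Finset.card_image_of_injective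
      intro a b hab
      rw [← hm a, ← hm b, hab]
    rw [h1, Finset.card_compl] at h2
    have h3 := Finset.card_le_univ T
    omega
  have hwc : WellCovered G := by
    intro I J hI hJ
    have h1 := hcard I hI
    have h2 := hcard J hJ
    omega
  refine ⟨fun v => ⟨m v, hadj v⟩, hwc, ?_⟩
  obtain ⟨T, -, hT⟩ := exists_maximal_of_indep G ∅ (by simp)
  rw [← maximal_card_eq G hwc hT, hcard T hT]

/-- A very well covered graph has a perfect matching with Favaron's property. -/
lemma exists_matching (hG : VeryWellCovered G) : ∃ m : V → V, (∀ v, m (m v) = v) ∧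
    (∀ v, G.Adj v (m v)) ∧ ∀ x v w, G.Adj x v → G.Adj (m x) w → G.Adj v w := by
  classical
  obtain ⟨hiso, hwc, hα⟩ := hG
  obtain ⟨I, -, hI⟩ := exists_maximal_of_indep G ∅ (by simp)
  have hIcard : 2 * I.card = Fintype.card V := by rw [maximal_card_eq G hwc hI, hα]
  -- Hall
  have hall : ∀ s : Finset I, s.card ≤ (s.biUnion fun v => G.neighborFinset (v : V)).card := by
    intro s
    have h1 : G.IsIndepSet ((s.map (Function.Embedding.subtype _) : Finset V) : Set V) := by
      apply hI.1.mono
      intro x hx
      simp only [Finset.coe_map, Set.mem_image, Finset.mem_coe] at hx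
      obtain ⟨y, _, rfl⟩ := hx
      exact y.2
    have h2 := berge G hiso hwc _ _ rfl h1
    rw [Finset.card_map] at h2
    refine h2.trans (Finset.card_le_card ?_)
    intro w hw
    simp only [Finset.mem_biUnion, Finset.mem_map, SimpleGraph.mem_neighborFinset] at hw ⊢
    obtain ⟨a, ⟨b, hb, rfl⟩, haw⟩ := hw
    exact ⟨b, hb, haw⟩
  obtain ⟨f, hf, hfN⟩ := (Finset.all_card_le_biUnion_card_iff_exists_injective
    (fun v : I => G.neighborFinset (v : V))).mp hall
  have hfadj : ∀ v : I, G.Adj v (f v) := fun v => by simpa using hfN v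
  have hfI : ∀ v : I, f v ∉ I := fun v h =>
    hI.1 v.2 h (G.ne_of_adj (hfadj v)) (hfadj v)
  have hsurj : ∀ w, w ∉ I → ∃ v : I, f v = w := by
    have h1 : (Finset.univ.image f) = Iᶜ := by
      apply Finset.eq_of_subset_of_card_le
      · intro w hw
        obtain ⟨v, _, rfl⟩ := Finset.mem_image.mp hw
        exact Finset.mem_compl.mpr (hfI v)
      · rw [Finset.card_image_of_injective _ hf, Finset.card_compl, Finset.card_univ,
          Fintype.card_coe]
        omega
    intro w hw
    have : w ∈ Finset.univ.image f := by rw [h1]; exact Finset.mem_compl.mpr hw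
    obtain ⟨v, _, rfl⟩ := Finset.mem_image.mp this
    exact ⟨v, rfl⟩
  choose g hg using hsurj
  let m : V → V := fun v => if h : v ∈ I then f ⟨v, h⟩ else (g v h : V)
  have hmI : ∀ v (h : v ∈ I), m v = f ⟨v, h⟩ := fun v h => dif_pos h
  have hmN : ∀ v (h : v ∉ I), m v = (g v h : V) := fun v h => dif_neg h
  have hmm : ∀ v, m (m v) = v := by
    intro v
    by_cases h : v ∈ I
    · rw [hmI v h, hmN _ (hfI ⟨v, h⟩)]
      have := hf (hg (f ⟨v, h⟩) (hfI ⟨v, h⟩))
      rw [this]
    · rw [hmN v h, hmI _ (g v h).2]
      exact hg v h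
  have hmadj : ∀ v, G.Adj v (m v) := by
    intro v
    by_cases h : v ∈ I
    · rw [hmI v h]; exact hfadj ⟨v, h⟩
    · rw [hmN v h]
      have := hfadj (g v h)
      rw [hg v h] at this
      exact this.symm
  refine ⟨m, hmm, hmadj, ?_⟩
  intro x v w hxv hxw
  by_contra hvw
  -- extend `{v, w}` to a maximal independent set
  have hind : G.IsIndepSet (({v, w} : Finset V) : Set V) := by
    intro a ha b hb hab hadj
    simp only [Finset.coe_insert, Finset.coe_singleton, Set.mem_insert_iff,
      Set.mem_singleton_iff] at ha hb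
    rcases ha with rfl | rfl <;> rcases hb with rfl | rfl
    · exact hab rfl
    · exact hvw hadj
    · exact hvw hadj.symm
    · exact hab rfl
  obtain ⟨T, hvT, hT⟩ := exists_maximal_of_indep G {v, w} hind
  have hvT' : v ∈ T := hvT (by simp)
  have hwT' : w ∈ T := hvT (by simp)
  have hTcard : 2 * T.card = Fintype.card V := by rw [maximal_card_eq G hwc hT, hα]
  have hxT : x ∉ T := fun h => hT.1 h hvT' (G.ne_of_adj hxv) hxv
  have hmxT : m x ∉ T := fun h => hT.1 h hwT' (G.ne_of_adj hxw) hxw
  have hinj : Function.Injective m := by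
    intro a b hab
    rw [← hmm a, ← hmm b, hab]
  have hdisj : Disjoint T (insert x (T.image m)) := by
    rw [Finset.disjoint_left]
    intro a ha hb
    rcases Finset.mem_insert.mp hb with rfl | hb
    · exact hxT ha
    · obtain ⟨b, hb', rfl⟩ := Finset.mem_image.mp hb
      exact hT.1 hb' ha (G.ne_of_adj (hmadj b)) (hmadj b)
  have hxim : x ∉ T.image m := by
    intro h
    obtain ⟨b, hb, hbx⟩ := Finset.mem_image.mp h
    rw [← hbx, hmm] at hmxT
    exact hmxT hb
  have h1 := Finset.card_le_univ (T ∪ insert x (T.image m))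
  rw [Finset.card_union_of_disjoint hdisj, Finset.card_insert_of_notMem hxim,
    Finset.card_image_of_injective _ hinj] at h1
  omega

end aux

/-- The jet graphs of a very well covered graph are very well covered. -/
theorem jets_veryWellCovered (V : Type*) [Fintype V] (G : SimpleGraph V) (hG : VeryWellCovered G)
    (s : ℕ) : VeryWellCovered (jets G s) := by
  classical
  obtain ⟨m, hmm, hmadj, hP⟩ := exists_matching G hG
  refine veryWellCovered_of_matching (jets G s)
    (fun p => (m p.1, ⟨s - p.2, by omega⟩)) ?_ ?_ ?_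
  · rintro ⟨v, i⟩
    have hi := i.2
    ext
    · simp [hmm]
    · simp only
      omega
  · rintro ⟨v, i⟩
    have hi := i.2
    refine ⟨hmadj v, ?_⟩
    simp only
    omega
  · rintro ⟨x, i⟩ ⟨v, a⟩ ⟨w, b⟩ ⟨h1, h2⟩ ⟨h3, h4⟩
    simp only at h1 h2 h3 h4
    refine ⟨hP x v w h1 h3, ?_⟩
    have hi := i.2
    simp only
    omega

section converse

variable {V : Type*} [Fintype V] [DecidableEq V] (G : SimpleGraph V)

lemma exists_adj_of_notMem {T : Finset V} (hT : IsMaximalIndep G T) {a : V} (ha : a ∉ T) :
    ∃ b ∈ T, G.Adj a b := by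
  by_contra hcon
  push Not at hcon
  have hins : G.IsIndepSet ((insert a T : Finset V) : Set V) := by
    intro x hx y hy hxy hadj'
    simp only [Finset.coe_insert, Set.mem_insert_iff, Finset.mem_coe] at hx hy
    rcases hx with rfl | hx <;> rcases hy with rfl | hy
    · exact hxy rfl
    · exact hcon y hy hadj'
    · exact hcon x hx hadj'.symm
    · exact hT.1 hx hy hxy hadj'
  exact ha (hT.2 hins (Finset.subset_insert a T) (Finset.mem_insert_self a T))

/-- Levels `i ≤ s` with `s < 2 i`. -/
def hi (s : ℕ) : Finset (Fin (s + 1)) := Finset.univ.filter fun i => s < 2 * (i : ℕ)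

/-- Levels `i ≤ s` with `2 i = s`. -/
def mi (s : ℕ) : Finset (Fin (s + 1)) := Finset.univ.filter fun i => 2 * (i : ℕ) = s

/-- Levels `i ≤ s` with `2 i < s`. -/
def lo (s : ℕ) : Finset (Fin (s + 1)) := Finset.univ.filter fun i => 2 * (i : ℕ) < s

lemma card_lo (s : ℕ) : (lo s).card = (hi s).card := by
  apply Finset.card_bij (fun i _ => Fin.rev i)
  · intro i h
    simp only [lo, hi, Finset.mem_filter, Finset.mem_univ, true_and, Fin.val_rev] at h ⊢
    omega
  · intro i _ j _ h
    exact Fin.rev_injective h
  · intro j h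
    refine ⟨Fin.rev j, ?_, Fin.rev_rev j⟩
    simp only [lo, hi, Finset.mem_filter, Finset.mem_univ, true_and, Fin.val_rev] at h ⊢
    omega

lemma card_levels (s : ℕ) : 2 * (hi s).card + (mi s).card = s + 1 := by
  have h1 : (lo s).card + (mi s).card + (hi s).card = s + 1 := by
    have hd1 : Disjoint (lo s) (mi s) := by
      rw [Finset.disjoint_left]
      intro i h1 h2
      simp only [lo, mi, Finset.mem_filter, Finset.mem_univ, true_and] at h1 h2
      omega
    have hd2 : Disjoint (lo s ∪ mi s) (hi s) := by
      rw [Finset.disjoint_left]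
      intro i h1 h2
      simp only [lo, mi, hi, Finset.mem_union, Finset.mem_filter, Finset.mem_univ,
        true_and] at h1 h2
      omega
    have hu : lo s ∪ mi s ∪ hi s = Finset.univ := by
      ext i
      simp only [lo, mi, hi, Finset.mem_union, Finset.mem_filter, Finset.mem_univ, true_and,
        iff_true]
      omega
    have := congrArg Finset.card hu
    rw [Finset.card_union_of_disjoint hd2, Finset.card_union_of_disjoint hd1,
      Finset.card_univ, Fintype.card_fin] at this
    exact this
  rw [card_lo] at h1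
  omega

lemma hi_pos {s : ℕ} (hs : 1 ≤ s) : 1 ≤ (hi s).card := by
  apply Finset.card_pos.mpr
  refine ⟨⟨s, by omega⟩, ?_⟩
  simp only [hi, Finset.mem_filter, Finset.mem_univ, true_and]
  omega

lemma maximal_high (hiso : ∀ v, ∃ w, G.Adj v w) {I : Finset V} (hI : IsMaximalIndep G I)
    (s : ℕ) : IsMaximalIndep (jets G s) ((Finset.univ ×ˢ hi s) ∪ (I ×ˢ mi s)) := by
  have hmem : ∀ p : V × Fin (s + 1), p ∈ ((Finset.univ ×ˢ hi s) ∪ (I ×ˢ mi s)) ↔
      (s < 2 * (p.2 : ℕ) ∨ (p.1 ∈ I ∧ 2 * (p.2 : ℕ) = s)) := by
    intro p
    simp only [Finset.mem_union, Finset.mem_product, Finset.mem_univ, true_and, hi, mi,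
      Finset.mem_filter]
  constructor
  · intro p hp q hq hpq hadj
    rw [Finset.mem_coe, hmem] at hp hq
    obtain ⟨h1, h2⟩ := hadj
    rcases hp with hp | ⟨hp, hp'⟩
    · rcases hq with hq | ⟨_, hq'⟩ <;> omega
    · rcases hq with hq | ⟨hq, hq'⟩
      · omega
      · exact hI.1 hp hq (G.ne_of_adj h1) h1
  · intro T hT hle p hp
    rw [hmem]
    by_contra hcon
    push Not at hcon
    obtain ⟨hc1, hc2⟩ := hcon
    rcases lt_or_eq_of_le hc1 with hlt | heq
    · obtain ⟨w, hw⟩ := hiso p.1
      have hq : ((w, ⟨s - p.2, by omega⟩) : V × Fin (s + 1)) ∈ T := by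
        apply hle
        rw [hmem]
        left
        simp only
        omega
      have hadj : (jets G s).Adj p (w, ⟨s - p.2, by omega⟩) := by
        refine ⟨hw, ?_⟩
        have := p.2.2
        simp only
        omega
      exact hT hp hq ((jets G s).ne_of_adj hadj) hadj
    · have hpI : p.1 ∉ I := fun h => hc2 h heq
      obtain ⟨u, hu, hadj'⟩ := exists_adj_of_notMem G hI hpI
      have hq : ((u, p.2) : V × Fin (s + 1)) ∈ T := by
        apply hle
        rw [hmem]
        exact Or.inr ⟨hu, heq⟩
      have hadj : (jets G s).Adj p (u, p.2) := by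
        refine ⟨hadj', ?_⟩
        simp only
        omega
      exact hT hp hq ((jets G s).ne_of_adj hadj) hadj

lemma maximal_prod {I : Finset V} (hI : IsMaximalIndep G I) (s : ℕ) :
    IsMaximalIndep (jets G s) (I ×ˢ (Finset.univ : Finset (Fin (s + 1)))) := by
  constructor
  · intro p hp q hq hpq hadj
    rw [Finset.mem_coe, Finset.mem_product] at hp hq
    exact hI.1 hp.1 hq.1 (G.ne_of_adj hadj.1) hadj.1
  · intro T hT hle p hp
    rw [Finset.mem_product]
    refine ⟨?_, Finset.mem_univ _⟩
    by_contra hpI
    obtain ⟨u, hu, hadj'⟩ := exists_adj_of_notMem G hI hpI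
    have hq : ((u, 0) : V × Fin (s + 1)) ∈ T := by
      apply hle
      rw [Finset.mem_product]
      exact ⟨hu, Finset.mem_univ _⟩
    have hadj : (jets G s).Adj p (u, 0) := by
      refine ⟨hadj', ?_⟩
      have := p.2.2
      simp only [Fin.val_zero]
      omega
    exact hT hp hq ((jets G s).ne_of_adj hadj) hadj

/-- The converse: if `G` has no isolated vertex and one of its jet graphs `J_s(G)`, `s ≥ 1`, is
well covered, then `G` is very well covered. -/
lemma veryWellCovered_of_jets (hiso : ∀ v, ∃ w, G.Adj v w) {s : ℕ} (hs : 1 ≤ s)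
    (h : WellCovered (jets G s)) : VeryWellCovered G := by
  have key : ∀ I : Finset V, IsMaximalIndep G I → Fintype.card V = 2 * I.card := by
    intro I hI
    have h1 := h _ _ (maximal_high G hiso hI s) (maximal_prod G hI s)
    have hd : Disjoint ((Finset.univ : Finset V) ×ˢ hi s) (I ×ˢ mi s) := by
      rw [Finset.disjoint_left]
      rintro p hp hq
      simp only [hi, mi, Finset.mem_product, Finset.mem_filter, Finset.mem_univ, true_and]
        at hp hq
      omega
    rw [Finset.card_union_of_disjoint hd, Finset.card_product, Finset.card_product,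
      Finset.card_product, Finset.card_univ, Finset.card_univ, Fintype.card_fin] at h1
    have h2 := hi_pos hs
    have h4 := card_levels s
    have h3 : (Fintype.card V) * (hi s).card = (2 * I.card) * (hi s).card := by
      have h5 : I.card * (s + 1) = (2 * I.card) * (hi s).card + I.card * (mi s).card := by
        calc I.card * (s + 1) = I.card * (2 * (hi s).card + (mi s).card) := by rw [h4]
          _ = _ := by ring
      omega
    exact Nat.eq_of_mul_eq_mul_right (by omega) h3
  have hwc : WellCovered G := by
    intro I J hI hJ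
    have h1 := key I hI
    have h2 := key J hJ
    omega
  refine ⟨hiso, hwc, ?_⟩
  obtain ⟨T, -, hT⟩ := exists_maximal_of_indep G ∅ (by simp)
  rw [← maximal_card_eq G hwc hT, key T hT]

/-- If `J_s(G)` is very well covered (any `s ≥ 0`), then so is `G`. -/
lemma veryWellCovered_of_jets_veryWellCovered {s : ℕ} (h : VeryWellCovered (jets G s)) :
    VeryWellCovered G := by
  obtain ⟨h1, h2, h3⟩ := h
  have hiso : ∀ v, ∃ w, G.Adj v w := by
    intro v
    obtain ⟨w, hw⟩ := h1 (v, 0)
    exact ⟨w.1, hw.1⟩
  have key : ∀ I : Finset V, IsMaximalIndep G I → Fintype.card V = 2 * I.card := by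
    intro I hI
    have h4 := maximal_card_eq (jets G s) h2 (maximal_prod G hI s)
    rw [← h4, Fintype.card_prod, Fintype.card_fin, Finset.card_product, Finset.card_univ,
      Fintype.card_fin, ← mul_assoc] at h3
    exact Nat.eq_of_mul_eq_mul_right (Nat.succ_pos s) h3
  have hwc : WellCovered G := by
    intro I J hI hJ
    have h1 := key I hI
    have h2 := key J hJ
    omega
  refine ⟨hiso, hwc, ?_⟩
  obtain ⟨T, -, hT⟩ := exists_maximal_of_indep G ∅ (by simp)
  rw [← maximal_card_eq G hwc hT, key T hT]

end converse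

/-- For every finite simple graph `G` and every `s ≥ 0`, the graph of `s`-jets `J_s(G)` is very well
covered if and only if `G` is very well covered. Moreover, if `G` has no isolated vertex and
`s ≥ 1`, then `J_s(G)` is well covered only in this case. -/
theorem result (V : Type*) [Fintype V] (G : SimpleGraph V) :
    (∀ s : ℕ, VeryWellCovered (jets G s) ↔ VeryWellCovered G) ∧
    ((∀ v, ∃ w, G.Adj v w) →
      ∀ s : ℕ, 1 ≤ s → (WellCovered (jets G s) ↔ VeryWellCovered G)) := by
  classical
  refine ⟨fun s => ⟨fun h => veryWellCovered_of_jets_veryWellCovered G h,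
    fun h => jets_veryWellCovered V G h s⟩, ?_⟩
  intro hiso s hs
  exact ⟨fun h => veryWellCovered_of_jets G hiso hs h, fun h => (jets_veryWellCovered V G h s).2.1⟩

end Pool.Agent.Results.MP_26e8bc_co.JetsVeryWellCovered
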